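import Pool.Agent.Y391.ST.All

/-!
# Singular transitive distributions with infinite-dimensional symmetry groups, all ranks

For all `2 ≤ r` and `r + 2 ≤ n` there is a smooth distribution of rank `r` on `ℝⁿ` which is
singular transitive and whose symmetry group is not a finite-dimensional Lie group. If `r ≥ 4` it
can be chosen with a polynomial frame. The definitions are in `Pool/Agent/Y391/ST/Base.lean`
(they are those of the starting file `ProductContact.lean`).

Examples: (1) `∂_x`, `∂_y + ∑_j T(x) T'(y - 2j) ∂_{z_j}`, `∂_{w_k}`, with a smooth step `T`; over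
the flat regions `x < 0` and `x > 1` many curves are singular, and over `x < 0` the symmetry group
contains all shears `y ↦ y + t χ(x)`. (2) The product of the contact distribution
`∂_x, ∂_y + x ∂_z` with `∂_x', ∂_y' + ∑_j x'^j ∂_{z'_j}` and with `ℝ^c`.
-/

set_option autoImplicit false

namespace Pool.Agent.Results.MP_27f38a_gt.AllRanks

open Pool.Agent.Y391.ST
open scoped ContDiff

theorem result (r n : ℕ) (hn : r + 2 ≤ n) :
    (2 ≤ r → ∃ X : Fin r → (Fin n → ℝ) → (Fin n → ℝ),
      (∀ i, ContDiff ℝ ∞ (X i)) ∧ (∀ q, LinearIndependent ℝ (fun i => X i q)) ∧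
        SingularTransitive X ∧ ¬ IsFiniteDimLieGroup (symmetryGroup (distribution X))) ∧
    (4 ≤ r → ∃ X : Fin r → (Fin n → ℝ) → (Fin n → ℝ),
      (∀ i s, ∃ p : MvPolynomial (Fin n) ℝ, ∀ q, X i q s = MvPolynomial.eval q p) ∧
      (∀ i, ContDiff ℝ ∞ (X i)) ∧ (∀ q, LinearIndependent ℝ (fun i => X i q)) ∧
        SingularTransitive X ∧ ¬ IsFiniteDimLieGroup (symmetryGroup (distribution X))) :=
  ⟨fun hr => mainAll r n hr hn, fun hr => mainPoly r n hr hn⟩

end Pool.Agent.Results.MP_27f38a_gt.AllRanks
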